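import Pool.Agent.H.MP_cafa5e_lc.A

set_option autoImplicit false
open Set Function

namespace Pool.Agent.Results.MP_cafa5e_lc.No

/-- Borel equidecomposability of subsets of `X × ℕ` with finitely many pieces -/
def Equi (Γ : Type) {X : Type} [Group Γ] [MulAction Γ X] [MeasurableSpace X]
    (A B : Set (X × ℕ)) : Prop :=
  ∃ (r : ℕ) (P Q : Fin r → Set (X × ℕ)) (γ : Fin r → Γ) (j k : Fin r → ℕ),
    (∀ i, MeasurableSet (P i)) ∧ (∀ i, MeasurableSet (Q i)) ∧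
    Pairwise (Disjoint on P) ∧ Pairwise (Disjoint on Q) ∧ ⋃ i, P i = A ∧ ⋃ i, Q i = B ∧
    (∀ i, P i ⊆ univ ×ˢ {j i}) ∧ ∀ i, Q i = {b | ∃ x, (x, j i) ∈ P i ∧ b = (γ i • x, k i)}

/-- `[A] ≤ [B]` in the type semigroup -/
def Le (Γ : Type) {X : Type} [Group Γ] [MulAction Γ X] [MeasurableSpace X]
    (A B : Set (X × ℕ)) : Prop :=
  ∃ C, MeasurableSet C ∧ C ⊆ B ∧ Equi Γ A C

/-- `n` copies of `A ⊆ X × {0, …, K - 1}` stacked on top of each other: represents `n [A]` -/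
def rep {X : Type} (K n : ℕ) (A : Set (X × ℕ)) : Set (X × ℕ) :=
  ⋃ i < n, (fun a => (a.1, a.2 + i * K)) '' A

open Pool.Agent.H.MP_cafa5e_lc Pool.Agent.Lib.helper24.Det

def sg : (Fin 3 ⊕ Fin 2) × ℕ → (Fin 3 ⊕ Fin 2) × ℕ
  | (.inl a, c) => (.inr ⟨c % 2, by omega⟩, 3 * (c / 2) + a)
  | (.inr b, c) => (.inl ⟨c % 3, by omega⟩, 2 * (c / 3) + b)

lemma sg_inv : Involutive sg := by
  rintro ⟨a | b, c⟩
  · refine Prod.ext (congrArg Sum.inl (Fin.ext ?_)) ?_ <;> simp only [sg] <;> omega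
  · refine Prod.ext (congrArg Sum.inr (Fin.ext ?_)) ?_ <;> simp only [sg] <;> omega

lemma mem_rep {X : Type} (Y : Set X) (n : ℕ) (a : X × ℕ) :
    a ∈ rep 1 n (Y ×ˢ {0}) ↔ a.1 ∈ Y ∧ a.2 < n := by
  simp only [rep, mem_iUnion]
  constructor
  · rintro ⟨i, hi, ⟨x, _⟩, ⟨h, rfl⟩, rfl⟩
    exact ⟨h, by simpa using hi⟩
  · exact fun ⟨h, h'⟩ => ⟨a.2, h', (a.1, 0), ⟨h, rfl⟩, by simp⟩

def pc (p q : Fin 3 ⊕ Fin 2) (n : ℕ) : Set (X (Fin 3 ⊕ Fin 2) × ℕ) :=
  {a | a.1.2 = none ∧ a.2 = n ∧ (mv sg (a.1.1, p)).2 = q}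

lemma pc_meas (p q : Fin 3 ⊕ Fin 2) (n : ℕ) : MeasurableSet (pc p q n) := by
  let _ : MeasurableSpace (Fin 3 ⊕ Fin 2) := ⊤
  exact (measurable_fst.snd (measurableSet_singleton none)).inter
    ((measurable_snd (measurableSet_singleton n)).inter
      (((mv_meas sg p).snd.comp measurable_fst.fst) (t := {q}) trivial))

theorem result : ∃ (Γ X : Type) (_ : Group Γ) (_ : Countable Γ) (_ : MeasurableSpace X)
    (_ : StandardBorelSpace X) (_ : MulAction Γ X), (∀ g : Γ, Measurable fun x : X => g • x) ∧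
    ∃ (K : ℕ) (A : Set (X × ℕ)), MeasurableSet A ∧ A ⊆ univ ×ˢ Iio K ∧
      Le Γ (rep K 3 A) (rep K 2 A) ∧ ¬ Le Γ (rep K 2 A) A := by
  have mg : ∀ g : Subgroup.closure (range (tau sg_inv)),
      Measurable fun x : X (Fin 3 ⊕ Fin 2) => g • x := by
    intro g
    obtain ⟨L, hL⟩ := ex_list sg_inv g.2
    exact (show Measurable g.1 from hL ▸ prod_meas sg_inv L)
  refine ⟨Subgroup.closure (range (tau sg_inv)), X (Fin 3 ⊕ Fin 2), inferInstance, ?_,
    inferInstance, inferInstance, inferInstance, mg, 1, {x | x.2 = none} ×ˢ {0},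
    (measurable_snd (measurableSet_singleton none)).prod (measurableSet_singleton 0),
    fun a ha => ⟨trivial, by simp [show a.2 = 0 from ha.2]⟩, ?_, ?_⟩
  · choose L hL using fun g : Subgroup.closure (range (tau sg_inv)) => ex_list sg_inv g.2
    exact Injective.countable (f := L) fun a b h => Subtype.ext (by rw [← hL, ← hL, h])
  · let t : Option (Fin 3 ⊕ Fin 2) → Subgroup.closure (range (tau sg_inv)) := fun a =>
      ⟨tau sg_inv a, Subgroup.subset_closure (mem_range_self a)⟩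
    have act : ∀ p q z, (mv sg (z, p)).2 = q →
        (t (some q) * t none * t (some p)) • ((z, none) : X (Fin 3 ⊕ Fin 2)) =
          ((mv sg (z, p)).1, none) := by
      intro p q z h
      change tf sg (some q) (tf sg none (tf sg (some p) (z, none))) = _
      simp [tf, mu, up, h]
    let e : Fin (3 * 2) → Fin 3 × Fin 2 := finProdFinEquiv.symm
    have he : Bijective e := finProdFinEquiv.symm.bijective
    refine ⟨_, MeasurableSet.iUnion fun i => pc_meas (.inr (e i).2) (.inl (e i).1) (e i).2, ?_,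
      3 * 2, fun i => pc (.inl (e i).1) (.inr (e i).2) (e i).1, _,
      fun i => t (some (.inr (e i).2)) * t none * t (some (.inl (e i).1)), fun i => (e i).1,
      fun i => (e i).2, fun i => pc_meas _ _ _, fun i => pc_meas _ _ _, fun i j hij => ?_,
      fun i j hij => ?_, ?_, rfl, fun i a ha => ⟨trivial, ha.2.1⟩, fun i => ?_⟩
    · exact iUnion_subset fun i a ha => (mem_rep _ _ _).2 ⟨ha.1, ha.2.1 ▸ (e i).2.2⟩
    · refine disjoint_left.2 fun a h1 h2 => hij (he.1 ?_)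
      have : (e i).1 = (e j).1 := Fin.ext (h1.2.1.symm.trans h2.2.1)
      exact Prod.ext this (Sum.inr.inj (h1.2.2.symm.trans (this ▸ h2.2.2)))
    · refine disjoint_left.2 fun a h1 h2 => hij (he.1 ?_)
      have : (e i).2 = (e j).2 := Fin.ext (h1.2.1.symm.trans h2.2.1)
      exact Prod.ext (Sum.inl.inj (h1.2.2.symm.trans (this ▸ h2.2.2))) this
    · ext a
      rw [mem_rep, mem_iUnion]
      refine ⟨fun ⟨i, h⟩ => ⟨h.1, h.2.1 ▸ (e i).1.2⟩, fun ⟨h1, h2⟩ => ?_⟩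
      obtain ⟨i, hi⟩ := he.2 (⟨a.2, h2⟩, ⟨a.1.1 (.inl ⟨a.2, h2⟩, []) % 2, by omega⟩)
      exact ⟨i, h1, by rw [hi], by rw [hi]; rfl⟩
    · ext ⟨⟨z, o⟩, n⟩
      constructor
      · rintro ⟨rfl : o = none, rfl : n = _, h⟩
        have h1 := mv_inv sg_inv (z, .inr (e i).2)
        rw [← Prod.mk.eta (p := mv sg (z, .inr (e i).2)), show (mv sg (z, _)).2 = _ from h] at h1
        refine ⟨((mv sg (z, .inr (e i).2)).1, none), ⟨rfl, rfl, congrArg Prod.snd h1⟩, ?_⟩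
        rw [act _ _ _ (congrArg Prod.snd h1), h1]
      · rintro ⟨⟨y, o'⟩, ⟨rfl : o' = none, -, h⟩, h'⟩
        rw [h', act _ _ _ h]
        refine ⟨rfl, rfl, ?_⟩
        have h1 := mv_inv sg_inv (y, .inl (e i).1)
        rw [← Prod.mk.eta (p := mv sg (y, .inl (e i).1)), show (mv sg (y, _)).2 = _ from h] at h1
        exact congrArg Prod.snd h1
  · rintro ⟨C, -, hC, r, P, Q, γ, j, k, -, mQ, -, dQ, uP, uQ, sP, hQ⟩
    choose L hL using fun i => ex_list sg_inv (γ i).2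
    have qC : ∀ i, ∀ a ∈ Q i, a.1.2 = none ∧ a.2 = 0 := fun i a ha =>
      hC (uQ ▸ mem_iUnion.2 ⟨i, ha⟩)
    refine no_para sg_inv ?_ (fun i => {x | (x, 0) ∈ Q i}) L
      (fun i => measurable_prodMk_right (mQ i)) (fun i x hx => (qC i _ hx).1)
      (fun i j hij => disjoint_left.2 fun x a b => disjoint_left.1 (dQ hij) a b) fun z => ?_
    · rintro (a | b) <;> exact ⟨0, 1, by simp [sg]⟩
    have : ∀ n < 2, ∃ i, j i = n ∧ ((L i).map (tau sg_inv)).prod (z, none) ∈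
        {x | (x, 0) ∈ Q i} := by
      intro n hn
      obtain ⟨i, hi⟩ := mem_iUnion.1 (uP.ge ((mem_rep _ 2 ((z, none), n)).2 ⟨rfl, hn⟩))
      have e : n = j i := (sP i hi).2
      have : (γ i • ((z, none) : X (Fin 3 ⊕ Fin 2)), k i) ∈ Q i := hQ i ▸ ⟨_, e ▸ hi, rfl⟩
      rw [show k i = 0 from (qC i _ this).2] at this
      exact ⟨i, e.symm, hL i ▸ this⟩
    obtain ⟨i, a, b⟩ := this 0 (by omega)
    obtain ⟨i', a', b'⟩ := this 1 (by omega)
    exact ⟨i, i', by rintro rfl; omega, b, b'⟩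

end Pool.Agent.Results.MP_cafa5e_lc.No
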